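import Pool.Agent.Q234.PE.Stm
import Pool.Agent.Q234.PL.Rw
import Pool.Agent.Q68.PL.JW

/-!
Lemma job PE-EI (project PE of helper234).
-/

set_option autoImplicit false

open scoped BigOperators Matrix
open Finset Pool.Agent.TH235.PP Pool.Agent.Q234.PL Pool.Agent.Q234.PL.Rg Pool.Agent.Q234.PL.Rw

namespace Pool.Agent.Q130.PE.EI

open Pool.Agent.Q234.PE

variable {N : ℕ}

/-- real combinations of the `A` and the `B` anticommute -/
theorem anti (hJ : JW) (f g : Fin (N + 1) → ℝ) :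
    (∑ j, (g j : ℂ) • Bo (N := N) j) * (∑ j, (f j : ℂ) • Ao j) =
      -((∑ j, (f j : ℂ) • Ao j) * ∑ j, (g j : ℂ) • Bo j) := by
  obtain ⟨⟨-, -, h3⟩, -⟩ := hJ N
  rw [sum_mul_sum, sum_mul_sum, sum_comm, ← sum_neg_distrib]
  refine sum_congr rfl fun i _ => ?_
  rw [← sum_neg_distrib]
  refine sum_congr rfl fun j _ => ?_
  have h := h3 (Sum.inr j) (Sum.inl i) (by simp)
  simp only [Sum.elim_inl, Sum.elim_inr] at h
  rw [smul_mul_assoc, mul_smul_comm, smul_mul_assoc, mul_smul_comm, h, smul_neg, smul_neg,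
    smul_comm]

theorem mode (hJ : JW) (f g : Fin (N + 1) → ℝ) :
    ((∑ j, (f j : ℂ) • Ao (N := N) j) + Complex.I • ∑ j, (g j : ℂ) • Bo j)ᴴ *
      ((∑ j, (f j : ℂ) • Ao j) + Complex.I • ∑ j, (g j : ℂ) • Bo j) =
    ((f ⬝ᵥ f + g ⬝ᵥ g : ℝ) : ℂ) • (1 : Matrix (Cf N) (Cf N) ℂ) +
      (2 * Complex.I) • ((∑ j, (f j : ℂ) • Ao j) * ∑ j, (g j : ℂ) • Bo j) := by
  have hA := sq_sum Ao (maj_A (N := N) hJ) f
  have hB := sq_sum Bo (maj_B (N := N) hJ) g
  have hAh := herm_sum Ao (maj_A (N := N) hJ) f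
  have hBh := herm_sum Bo (maj_B (N := N) hJ) g
  have hc := anti (N := N) hJ f g
  set X := ∑ j, (f j : ℂ) • Ao (N := N) j with hX
  set Y := ∑ j, (g j : ℂ) • Bo (N := N) j with hY
  have hstar : star Complex.I = -Complex.I := by simp
  rw [Matrix.conjTranspose_add, Matrix.conjTranspose_smul, hAh, hBh, hstar, add_mul, mul_add,
    mul_add, hA, smul_mul_assoc, smul_mul_assoc, mul_smul_comm, mul_smul_comm, hB, hc]
  have h2 : (-Complex.I) • Complex.I • (((g ⬝ᵥ g : ℝ) : ℂ) • (1 : Matrix (Cf N) (Cf N) ℂ)) =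
      ((g ⬝ᵥ g : ℝ) : ℂ) • (1 : Matrix (Cf N) (Cf N) ℂ) := by
    rw [smul_smul, neg_mul, Complex.I_mul_I, neg_neg, one_smul]
  rw [h2, smul_neg, neg_smul, neg_neg]
  push_cast
  rw [add_smul, mul_smul, two_smul]
  abel

theorem main : EnergyId := by
  intro N ε lam R hR
  have hJ := Pool.Agent.Q68.PL.JWjob.main
  have hmode : ∀ k : Fin (N + 1), (annih R (ev k))ᴴ * annih R (ev k) =
      (((fun j => R j k) ⬝ᵥ (fun j => R j k) + (fun j => R k j) ⬝ᵥ (fun j => R k j) : ℝ) : ℂ) •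
        (1 : Matrix (Cf N) (Cf N) ℂ) +
      (2 * Complex.I) • ((∑ j, (R j k : ℂ) • Ao j) * ∑ j, (R k j : ℂ) • Bo j) := by
    intro k
    have e1 : (R *ᵥ ev k) = fun j => R j k := by
      funext j
      simp [ev]
    have e2 : (Rᵀ *ᵥ ev k) = fun j => R k j := by
      funext j
      simp [ev]
    unfold annih
    rw [e1, e2]
    exact mode hJ (fun j => R j k) (fun j => R k j)
  simp only [hmode]
  rw [sum_add_distrib, ← sum_smul, ← smul_sum, smul_add, smul_smul, smul_smul]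
  have htr : (1 / 2 : ℂ) * ∑ k, (((fun j => R j k) ⬝ᵥ (fun j => R j k) +
      (fun j => R k j) ⬝ᵥ (fun j => R k j) : ℝ) : ℂ) = (((R * Rᵀ).trace : ℝ) : ℂ) := by
    have h1 : ∑ k, ((fun j => R j k) ⬝ᵥ (fun j => R j k) +
      (fun j => R k j) ⬝ᵥ (fun j => R k j)) = 2 * (R * Rᵀ).trace := by
      rw [sum_add_distrib, two_mul]
      congr 1
      · simp only [dotProduct, Matrix.trace, Matrix.diag, Matrix.mul_apply, Matrix.transpose_apply]
        rw [sum_comm]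
    rw [← Complex.ofReal_sum, h1]
    push_cast
    ring
  rw [htr, add_comm]
  congr 1
  have h3 : (1 / 2 : ℂ) * (2 * Complex.I) = Complex.I := by ring
  rw [h3, ← hR.sq]
  unfold qf qfo
  rw [smul_sum]
  have h4 : ∀ k : Fin (N + 1), Complex.I • ((∑ j, (R j k : ℂ) • Ao (N := N) j) *
      ∑ j, (R k j : ℂ) • Bo j) = ∑ j, ∑ l, (Complex.I * ((R j k : ℂ) * (R k l : ℂ))) •
        (Ao j * Bo l) := by
    intro k
    rw [sum_mul_sum, smul_sum]
    refine sum_congr rfl fun j _ => ?_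
    rw [smul_sum]
    refine sum_congr rfl fun l _ => ?_
    rw [smul_mul_assoc, mul_smul_comm, smul_smul, smul_smul, mul_assoc]
  simp only [h4]
  symm
  rw [sum_comm]
  refine sum_congr rfl fun j _ => ?_
  rw [sum_comm]
  refine sum_congr rfl fun l _ => ?_
  rw [← sum_smul, ← mul_sum, Matrix.mul_apply]
  push_cast
  rfl

end Pool.Agent.Q130.PE.EI
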