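import Pool.Agent.Q234.PE.Stm
import Pool.Agent.Q234.PL.AllA

/-!
Lemma job PE-RE (project PE of helper234). The first part is adapted from `Q234/PL/Rg.lean`.
-/

set_option autoImplicit false

open scoped BigOperators Matrix
open Finset Pool.Agent.TH235.PP Pool.Agent.Q234.PL Pool.Agent.Q234.PL.Rg

namespace Pool.Agent.Q130.PE.RE

open Pool.Agent.Q234.PE

theorem main (h : EnergyId) : RingE := by
  intro N lam hN h0 h1
  have hJ : JW := Pool.Agent.Q68.PL.JWjob.main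
  have hI : RingId := Pool.Agent.Q68.PL.RIjob.main hJ
  have hE : ExVac := Pool.Agent.Q234.PL.All.exVac
  have hP : Parity := Pool.Agent.Q298.PL.PA.main hJ hE
  have hC : Compare := Pool.Agent.Q68.PL.COjob.main hJ hI
  obtain ⟨R, E, Ψ, hR, hg, ha⟩ := hE N (-1) lam (Or.inr rfl) h0 h1
  obtain ⟨R', E', Ψ', hR', hg', ha'⟩ := hE N 1 lam (Or.inl rfl) h0 h1
  have p1 : Po *ᵥ Ψ = Ψ := hP N (-1) lam E Ψ (Or.inr rfl) h0 h1 hg
  have p2 : Po *ᵥ Ψ' = Ψ' := hP N 1 lam E' Ψ' (Or.inl rfl) h0 h1 hg'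
  have hEE : E ≤ E' := hC N lam E' E Ψ' Ψ hN h0 h1 hg' p2 hg
  -- the quadratic form of one sector
  have key : ∀ (ε : ℝ) (R : Matrix (Fin (N + 1)) (Fin (N + 1)) ℝ), RootOf N ε lam R →
      ∀ f : Cf N → ℂ, (ip f (qf (1 - lam • shiftM N ε) *ᵥ f)).re =
        -(R * Rᵀ).trace * normSq f + (1 / 2) * ∑ k, normSq (annih R (ev k) *ᵥ f) := by
    intro ε R hR f
    have e1 := h N ε lam R hR
    have e2 : qf (1 - lam • shiftM N ε) *ᵥ f = (1 / 2 : ℂ) • ∑ k, (annih R (ev k))ᴴ *ᵥ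
        (annih R (ev k) *ᵥ f) - (((R * Rᵀ).trace : ℝ) : ℂ) • f := by
      have e3 : qf (1 - lam • shiftM N ε) = (1 / 2 : ℂ) • ∑ k, (annih R (ev k))ᴴ * annih R (ev k) -
          (((R * Rᵀ).trace : ℝ) : ℂ) • (1 : Matrix (Cf N) (Cf N) ℂ) := eq_sub_of_add_eq e1
      rw [e3, Matrix.sub_mulVec, Matrix.smul_mulVec, Matrix.smul_mulVec, Matrix.one_mulVec,
        Matrix.sum_mulVec]
      simp only [Matrix.mulVec_mulVec]
    have hsum : ∀ (x : Cf N → ℂ) (y : Fin (N + 1) → Cf N → ℂ),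
        ip x (∑ k, y k) = ∑ k, ip x (y k) := by
      intro x y
      unfold ip
      simp only [Finset.sum_apply, mul_sum]
      rw [sum_comm]
    have e4 : ip f (qf (1 - lam • shiftM N ε) *ᵥ f) =
        ((-(R * Rᵀ).trace * normSq f + (1 / 2) * ∑ k, normSq (annih R (ev k) *ᵥ f) : ℝ) : ℂ) := by
      rw [e2, sub_eq_add_neg, ← neg_smul, ip_add_right, ip_smul_right, ip_smul_right, hsum,
        ip_self]
      have e5 : ∀ k, ip f ((annih R (ev k))ᴴ *ᵥ (annih R (ev k) *ᵥ f)) =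
          (normSq (annih R (ev k) *ᵥ f) : ℂ) := by
        intro k
        rw [← ip_mulVec, ip_self]
      simp only [e5]
      push_cast
      ring
    rw [e4, Complex.ofReal_re]
  have hen : ∀ (ε : ℝ) (R : Matrix (Fin (N + 1)) (Fin (N + 1)) ℝ) (E : ℝ) (Ψ : Cf N → ℂ),
      RootOf N ε lam R → IsGround (qf (1 - lam • shiftM N ε)) E (2 * (1 - lam)) Ψ →
      (∀ w, annih R w *ᵥ Ψ = 0) → E = -(R * Rᵀ).trace := by
    intro ε R E Ψ hR hg ha
    have e1 := key ε R hR Ψ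
    rw [hg.2.1, ip_smul_right, ip_self, hg.1] at e1
    have e2 : ∑ k, normSq (annih R (ev k) *ᵥ Ψ) = 0 := by
      refine sum_eq_zero fun k _ => ?_
      rw [ha]
      unfold normSq
      simp
    rw [e2] at e1
    simpa using e1
  have hEt := hen (-1) R E Ψ hR hg ha
  have hEt' := hen 1 R' E' Ψ' hR' hg' ha'
  obtain ⟨-, hPh, hPP, -, -⟩ := hJ N
  set q1 := qf (1 - lam • shiftM N (-1)) with hq1
  set q2 := qf (1 - lam • shiftM N 1) with hq2
  have c1 : Po * q1 = q1 * Po := po_qf hJ _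
  have c2 : Po * q2 = q2 * Po := po_qf hJ _
  have hH : ringH lam N = (1 / 2 : ℂ) • (q1 * (1 + Po)) + (1 / 2 : ℂ) • (q2 * (1 - Po)) := hI N lam hN
  have hsplit : ∀ φ : Cf N → ℂ, ringH lam N *ᵥ φ =
      q1 *ᵥ ((1 / 2 : ℂ) • (φ + Po *ᵥ φ)) + q2 *ᵥ ((1 / 2 : ℂ) • (φ - Po *ᵥ φ)) := by
    intro φ
    rw [hH, Matrix.add_mulVec, Matrix.smul_mulVec, Matrix.smul_mulVec, ← Matrix.mulVec_mulVec,
      ← Matrix.mulVec_mulVec, Matrix.add_mulVec, Matrix.sub_mulVec, Matrix.one_mulVec,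
      Matrix.mulVec_smul, Matrix.mulVec_smul]
  have hPv : ∀ φ : Cf N → ℂ, Po *ᵥ (Po *ᵥ φ) = φ := by
    intro φ
    rw [Matrix.mulVec_mulVec, hPP, Matrix.one_mulVec]
  have hPip : ∀ x y : Cf N → ℂ, ip (Po *ᵥ x) y = ip x (Po *ᵥ y) := by
    intro x y
    rw [ip_mulVec, hPh.eq]
  have hhalf : ∀ x : Cf N → ℂ, (1 / 2 : ℂ) • (x + x) = x := by
    intro x
    rw [← two_smul ℂ x, smul_smul]
    norm_num
  obtain ⟨F, hF1, hF2⟩ : ∃ F : ℝ → Matrix (Fin (N + 1)) (Fin (N + 1)) ℝ, F (-1) = R ∧ F 1 = R' :=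
    ⟨fun ε => if ε = -1 then R else R', if_pos rfl, if_neg (by norm_num)⟩
  refine ⟨F, E, Ψ, ?_, ⟨hg.1, ?_, ?_⟩, ?_, ?_⟩
  · intro ε hε
    rcases hε with rfl | rfl
    · rw [hF2]
      exact hR'
    · rw [hF1]
      exact hR
  · rw [hsplit, p1, sub_self, smul_zero, Matrix.mulVec_zero, add_zero, hhalf]
    exact hg.2.1
  · intro φ
    set u := (1 / 2 : ℂ) • (φ + Po *ᵥ φ) with hu
    set w := (1 / 2 : ℂ) • (φ - Po *ᵥ φ) with hw
    have hPu : Po *ᵥ u = u := by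
      rw [hu, Matrix.mulVec_smul, Matrix.mulVec_add, hPv, add_comm]
    have hPw : Po *ᵥ w = -w := by
      rw [hw, Matrix.mulVec_smul, Matrix.mulVec_sub, hPv, ← smul_neg, neg_sub]
    have huw : u + w = φ := by
      rw [hu, hw, ← smul_add]
      have : φ + Po *ᵥ φ + (φ - Po *ᵥ φ) = (2 : ℂ) • φ := by
        rw [two_smul]; abel
      rw [this, smul_smul]
      norm_num
    -- even and odd vectors are orthogonal
    have horth : ∀ x y : Cf N → ℂ, Po *ᵥ x = x → Po *ᵥ y = -y → ip x y = 0 := by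
      intro x y hx hy
      have e1 : ip x y = -ip x y := by
        calc ip x y = ip (Po *ᵥ x) y := by rw [hx]
          _ = ip x (Po *ᵥ y) := hPip _ _
          _ = -ip x y := by
            rw [hy, show -y = (-1 : ℂ) • y by simp, ip_smul_right]; ring
      have e2 : (2 : ℂ) * ip x y = 0 := by linear_combination e1
      exact (mul_eq_zero.1 e2).resolve_left two_ne_zero
    have hq1u : Po *ᵥ (q1 *ᵥ u) = q1 *ᵥ u := by
      rw [Matrix.mulVec_mulVec, c1, ← Matrix.mulVec_mulVec, hPu]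
    have hq2w : Po *ᵥ (q2 *ᵥ w) = -(q2 *ᵥ w) := by
      rw [Matrix.mulVec_mulVec, c2, ← Matrix.mulVec_mulVec, hPw, Matrix.mulVec_neg]
    have hnorm : normSq φ = normSq u + normSq w := by
      rw [← huw]
      exact normSq_add_of_ip _ _ (horth u w hPu hPw)
    have hwu : ∀ x y : Cf N → ℂ, Po *ᵥ x = -x → Po *ᵥ y = y → ip x y = 0 := by
      intro x y hx hy
      rw [← ip_conj, horth y x hy hx, map_zero]
    have hquad : ip φ (ringH lam N *ᵥ φ) = ip u (q1 *ᵥ u) + ip w (q2 *ᵥ w) := by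
      rw [hsplit φ, ← hu, ← hw, ip_add_right]
      have e1 : ip φ (q1 *ᵥ u) = ip u (q1 *ᵥ u) := by
        calc ip φ (q1 *ᵥ u) = ip (u + w) (q1 *ᵥ u) := by rw [huw]
          _ = ip u (q1 *ᵥ u) := by rw [ip_add_left, hwu w _ hPw hq1u, add_zero]
      have e2 : ip φ (q2 *ᵥ w) = ip w (q2 *ᵥ w) := by
        calc ip φ (q2 *ᵥ w) = ip (u + w) (q2 *ᵥ w) := by rw [huw]
          _ = ip w (q2 *ᵥ w) := by rw [ip_add_left, horth u _ hPu hq2w, zero_add]
      rw [e1, e2]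
    have hΨφ : ip Ψ φ = ip Ψ u := by
      rw [← huw, ip_add_right, horth Ψ w p1 hPw, add_zero]
    have i1 := hg.2.2 u
    have i2 := hg'.2.2 w
    have hΨ'w : ip Ψ' w = 0 := horth Ψ' w p2 hPw
    rw [hΨ'w, norm_zero] at i2
    rw [hquad, Complex.add_re, hnorm, hΨφ]
    have h3 : E * normSq w ≤ E' * normSq w := mul_le_mul_of_nonneg_right hEE (normSq_nonneg w)
    have h4 := normSq_nonneg w
    nlinarith only [i1, i2, h3]
  · intro w
    rw [hF1]
    exact ha w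
  · intro ε hε f hf
    have hPf : Po *ᵥ f = ((-ε : ℝ) : ℂ) • f := by
      funext s
      unfold Po
      rw [Matrix.mulVec_diagonal, Pi.smul_apply, smul_eq_mul]
      by_cases hs : f s = 0
      · rw [hs, mul_zero, mul_zero]
      · rw [hf s hs]
    rcases hε with rfl | rfl
    · rw [hF2]
      have e1 : Po *ᵥ f = -f := by
        rw [hPf]
        push_cast
        rw [neg_one_smul]
      have e2 : ringH lam N *ᵥ f = q2 *ᵥ f := by
        rw [hsplit, e1, add_neg_cancel, smul_zero, Matrix.mulVec_zero, zero_add, sub_neg_eq_add,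
          hhalf]
      rw [e2, hq2, key 1 R' hR' f, ← hEt']
      have := mul_le_mul_of_nonneg_right hEE (normSq_nonneg f)
      linarith
    · rw [hF1]
      have e1 : Po *ᵥ f = f := by
        rw [hPf]
        push_cast
        rw [neg_neg, one_smul]
      have e2 : ringH lam N *ᵥ f = q1 *ᵥ f := by
        rw [hsplit, e1, sub_self, smul_zero, Matrix.mulVec_zero, add_zero, hhalf]
      rw [e2, hq1, key (-1) R hR f, ← hEt]

end Pool.Agent.Q130.PE.RE
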